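import Pool.Agent.H34.NJ.Ent
import Pool.Agent.H37.CLO.Mxw

/-! helper73: the times of two samples on one line (class lemmas for 34's (H2)). -/

set_option autoImplicit false

namespace Pool.NJ34C

open Finset Real
open Pool.Agent.H49.Ent Pool.Agent.H32.Dense Pool.STK Pool.KAL Pool.M3F
open Pool.KA Pool.K2S Pool.KSAT Pool.PB Pool.GEN Pool.S6C Pool.KM7 Pool.CLO37

variable {m : ℕ}

/-- The law of two samples on one line and in one window. -/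
theorem cond_law {S : PCl m}
    (hmem : ∀ (τ : ℝ) (J : ℕ) (F : Fam m J) (A : F.Ω → Prop), S.St τ J F A →
      F.Tr ∧ F.Tm (τ * J) ∧ F.Rb (τ * J) ∧ Real.exp (-(τ * J)) ≤ Pe F.p A)
    {τ : ℝ} {J : ℕ} {F : Fam m J} {A : F.Ω → Prop} (h : S.St τ J F A) :
    IsLaw (Pool.Agent.H49.Ent.cond F.p A True) :=
  isLaw_cond F.isLaw (lt_of_lt_of_le (Real.exp_pos _) (hmem τ J F A h).2.2.2)

theorem tdg_P2 {J : ℕ} (F : Fam m J) {p : F.Ω → ℝ} (hp : IsLaw p) (W₀ P₀ : ℕ) :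
    CH (P2 p (slam F W₀)) (fun e => F.T e.2 / 2 ^ (J - P₀) % 2 ^ (P₀ - W₀)) (fun e => e.1) =
      CH p (fun ω => tdg W₀ P₀ (K2S.Fam.pt F ω)) (slam F W₀) :=
  P2_CH hp (slam F W₀) (fun ω => F.T ω / 2 ^ (J - P₀) % 2 ^ (P₀ - W₀))

/-- (C) The window of the second sample. -/
theorem win_few {S : PCl m}
    (hmem : ∀ (τ : ℝ) (J : ℕ) (F : Fam m J) (A : F.Ω → Prop), S.St τ J F A →
      F.Tr ∧ F.Tm (τ * J) ∧ F.Rb (τ * J) ∧ Real.exp (-(τ * J)) ≤ Pe F.p A)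
    {w0 w1 : ℝ} (_h0 : 0 ≤ w0) (h01 : w0 ≤ w1) (h1 : w1 ≤ 1) {del : ℝ} (hd : 0 < del) :
    Bas S (fun J F A =>
      ((⌊w1 * J⌋₊ - ⌊w0 * J⌋₊ : ℕ) : ℝ) * Real.log 2 - del * J ≤
        CH (P2 (Pool.Agent.H49.Ent.cond F.p A True) (slam F ⌊w0 * J⌋₊))
          (fun e => F.T1 ⌊w1 * J⌋₊ e.2) (fun e => e.1)) := by
  obtain ⟨τ, hτ, J₁, h⟩ := tdg_w hmem w0 hd
  refine ⟨τ, hτ, J₁, fun J hJ F A hS => ?_⟩
  have hl := cond_law hmem hS
  have hPl := P2_isLaw hl (slam F ⌊w0 * J⌋₊)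
  have hW : ⌊w0 * J⌋₊ ≤ ⌊w1 * J⌋₊ :=
    Nat.floor_le_floor (mul_le_mul_of_nonneg_right h01 (Nat.cast_nonneg J))
  have hW1 : ⌊w1 * J⌋₊ ≤ J := by
    have h2 : w1 * (J : ℝ) ≤ J := by
      have := mul_le_mul_of_nonneg_right h1 (Nat.cast_nonneg (α := ℝ) J)
      linarith
    calc ⌊w1 * J⌋₊ ≤ ⌊(J : ℝ)⌋₊ := Nat.floor_le_floor h2
      _ = J := Nat.floor_natCast J
  have h3 := h J hJ F A hS ⌊w1 * J⌋₊ hW hW1
  rw [← tdg_P2 F hl] at h3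
  push_cast at h3
  rw [Real.log_pow] at h3
  have h4 : CH (P2 (Pool.Agent.H49.Ent.cond F.p A True) (slam F ⌊w0 * J⌋₊))
      (fun e => F.T e.2 / 2 ^ (J - ⌊w1 * J⌋₊) % 2 ^ (⌊w1 * J⌋₊ - ⌊w0 * J⌋₊)) (fun e => e.1) ≤
      CH (P2 (Pool.Agent.H49.Ent.cond F.p A True) (slam F ⌊w0 * J⌋₊))
          (fun e => F.T1 ⌊w1 * J⌋₊ e.2) (fun e => e.1) := by
    refine CH_mono_left hPl.nonneg fun e e' _ _ h => ?_
    have h5 : F.T e.2 / 2 ^ (J - ⌊w1 * J⌋₊) = F.T e'.2 / 2 ^ (J - ⌊w1 * J⌋₊) :=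
      (Prod.ext_iff.1 h).1
    show F.T e.2 / 2 ^ (J - ⌊w1 * J⌋₊) % _ = F.T e'.2 / 2 ^ (J - ⌊w1 * J⌋₊) % _
    rw [h5]
  linarith

/-- (B) The time of the second sample in its window. -/
theorem tim_few {S : PCl m}
    (hmem : ∀ (τ : ℝ) (J : ℕ) (F : Fam m J) (A : F.Ω → Prop), S.St τ J F A →
      F.Tr ∧ F.Tm (τ * J) ∧ F.Rb (τ * J) ∧ Real.exp (-(τ * J)) ≤ Pe F.p A)
    {w0 w1 : ℝ} (_h0 : 0 ≤ w0) (h01 : w0 ≤ w1) (h1 : w1 ≤ 1) {del : ℝ} (hd : 0 < del) :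
    Bas S (fun J F A => ∀ (N : ℕ) (j : F.Ω → ℕ) {U : Type} (f : F.Ω × F.Ω → U),
      (∀ ω, j ω ≤ N) →
      (∀ e e', 0 < P2 (Pool.Agent.H49.Ent.cond F.p A True) (slam F ⌊w0 * J⌋₊) e →
        0 < P2 (Pool.Agent.H49.Ent.cond F.p A True) (slam F ⌊w0 * J⌋₊) e' →
        j e.2 = j e'.2 → slam F ⌊w1 * J⌋₊ e.2 = slam F ⌊w1 * J⌋₊ e'.2 → f e = f e') →
      ((J - ⌊w1 * J⌋₊ : ℕ) : ℝ) * Real.log 2 - (del * J + Real.log (N + 1)) ≤
        CH (P2 (Pool.Agent.H49.Ent.cond F.p A True) (slam F ⌊w0 * J⌋₊)) (fun e => F.T e.2)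
          (fun e => (slam F ⌊w1 * J⌋₊ e.2, (f e, e.1)))) := by
  refine ⟨del / 6, by positivity, 0, fun J _ F A hS N j U f hj hf => ?_⟩
  have hl := cond_law hmem hS
  obtain ⟨hTr, hTm, hRb, hPe⟩ := hmem _ J F A hS
  have hA : 0 < Pe F.p A := lt_of_lt_of_le (Real.exp_pos _) hPe
  have hl0 := hl.nonneg
  have hPl := P2_isLaw hl (slam F ⌊w0 * J⌋₊)
  have hP0 := hPl.nonneg
  have hW : ⌊w0 * J⌋₊ ≤ ⌊w1 * J⌋₊ :=
    Nat.floor_le_floor (mul_le_mul_of_nonneg_right h01 (Nat.cast_nonneg J))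
  have hW1 : ⌊w1 * J⌋₊ ≤ J := by
    have h2 : w1 * (J : ℝ) ≤ J := by
      have := mul_le_mul_of_nonneg_right h1 (Nat.cast_nonneg (α := ℝ) J)
      linarith
    calc ⌊w1 * J⌋₊ ≤ ⌊(J : ℝ)⌋₊ := Nat.floor_le_floor h2
      _ = J := Nat.floor_natCast J
  obtain ⟨W0, hW0e⟩ : ∃ W, W = ⌊w0 * J⌋₊ := ⟨_, rfl⟩
  obtain ⟨W1, hW1e⟩ : ∃ W, W = ⌊w1 * J⌋₊ := ⟨_, rfl⟩
  rw [← hW0e] at hPl hP0 hW hf ⊢
  rw [← hW1e] at hW hW1 hf ⊢
  obtain ⟨p, hp⟩ : ∃ p, p = Pool.Agent.H49.Ent.cond F.p A True := ⟨_, rfl⟩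
  rw [← hp] at hl hl0 hPl hP0 hf ⊢
  have hT : ((J - W1 : ℕ) : ℝ) * Real.log 2 - CH p F.T (slam F W1) ≤ del * J := by
    have h2 := Pool.STPA.time_event F hTr hTm hRb hA hPe hW1
    rw [← hp] at h2
    rw [Nat.cast_sub hW1]
    linarith
  -- the label costs `log (N + 1)`
  have ha : CH (P2 p (slam F W0)) (fun e => F.T e.2)
      (fun e => (j e.2, (slam F W1 e.2, e.1))) ≤
      CH (P2 p (slam F W0)) (fun e => F.T e.2) (fun e => (slam F W1 e.2, (f e, e.1))) := by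
    refine CH_mono_cond hP0 fun e e' he he' h => ?_
    have h2 := Prod.ext_iff.1 h
    have h3 := Prod.ext_iff.1 h2.2
    exact Prod.ext h3.1 (Prod.ext (hf e e' he he' h2.1 h3.1) h3.2)
  have hb : CH (P2 p (slam F W0)) (fun e => F.T e.2) (fun e => (slam F W1 e.2, e.1)) ≤
      CH (P2 p (slam F W0)) (fun e => j e.2) (fun e => (slam F W1 e.2, e.1)) +
      CH (P2 p (slam F W0)) (fun e => F.T e.2) (fun e => (j e.2, (slam F W1 e.2, e.1))) :=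
    CH_le_add hP0 _ _ _
  have hb' : CH (P2 p (slam F W0)) (fun e => j e.2) (fun e => (slam F W1 e.2, e.1)) ≤
      Real.log (N + 1) := by
    have h2 := CH_le_card hP0 hPl.sum_one (fun e => j e.2) (fun e => (slam F W1 e.2, e.1))
      (fun _ => Finset.range (N + 1)) (fun e _ => Finset.mem_range.2 (Nat.lt_succ_of_le (hj e.2)))
    rw [Ex_const hPl.sum_one, Finset.card_range] at h2
    push_cast at h2
    exact h2
  have hc : CH p F.T (slam F W1) ≤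
      CH (P2 p (slam F W0)) (fun e => F.T e.2) (fun e => (slam F W1 e.2, e.1)) := by
    have h2 := P2_CH hl (slam F W0) (fun ω => (F.T ω, slam F W1 ω))
    have h3 := P2_CH hl (slam F W0) (fun ω => slam F W1 ω)
    have h4 := CH_chain hP0 (fun e => F.T e.2) (fun e => slam F W1 e.2) (fun e => e.1)
    have h5 := CH_chain hl0 F.T (slam F W1) (slam F W0)
    have h6 : CH p F.T (slam F W1) ≤ CH p F.T (fun ω => (slam F W1 ω, slam F W0 ω)) := by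
      refine CH_mono_cond hl0 fun ω ω' _ _ h => ?_
      refine Prod.ext h ?_
      have h7 := Prod.ext_iff.1 h
      have h8 := Prod.ext_iff.1 h7.2
      have h9 : F.T1 W1 ω = F.T1 W1 ω' := h8.2
      refine Prod.ext h7.1 (Prod.ext h8.1 ?_)
      show F.T1 W0 ω = F.T1 W0 ω'
      rw [Pool.NJ34.T1_div F hW hW1, Pool.NJ34.T1_div F hW hW1, h9]
    have h2' : CH (P2 p (slam F W0)) (fun e => (F.T e.2, slam F W1 e.2)) (fun e => e.1) =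
      CH p (fun ω => (F.T ω, slam F W1 ω)) (slam F W0) := h2
    have h3' : CH (P2 p (slam F W0)) (fun e => slam F W1 e.2) (fun e => e.1) =
      CH p (slam F W1) (slam F W0) := h3
    linarith
  linarith

/-- (A) The two windows are rarely equal or adjacent. -/
theorem sgn_few {S : PCl m}
    (hmem : ∀ (τ : ℝ) (J : ℕ) (F : Fam m J) (A : F.Ω → Prop), S.St τ J F A →
      F.Tr ∧ F.Tm (τ * J) ∧ F.Rb (τ * J) ∧ Real.exp (-(τ * J)) ≤ Pe F.p A)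
    {w0 w1 : ℝ} (h0 : 0 ≤ w0) (h01 : w0 < w1) (h1 : w1 ≤ 1) {th : ℝ} (hth : 0 < th) :
    Bas S (fun J F A => law (P2 (Pool.Agent.H49.Ent.cond F.p A True) (slam F ⌊w0 * J⌋₊))
      (Pool.NJ34.sgn (2 ^ (J - ⌊w1 * J⌋₊)) (fun e => F.T e.1) (fun e => F.T e.2)) 0 ≤ th) := by
  classical
  have hl2 : 0 < Real.log 2 := Real.log_pos one_lt_two
  obtain ⟨κ, hκ⟩ : ∃ κ, κ = (w1 - w0) * Real.log 2 := ⟨_, rfl⟩
  have hκ0 : 0 < κ := by
    rw [hκ]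
    exact mul_pos (by linarith) hl2
  obtain ⟨δ, hδ⟩ : ∃ δ, δ = th * κ / 4 := ⟨_, rfl⟩
  have hδ0 : 0 < δ := by
    rw [hδ]
    positivity
  obtain ⟨τ, hτ, J₁, h⟩ := tdg_w hmem w0 hδ0
  obtain ⟨J₂, hJ₂⟩ := exists_nat_gt (2 * (Real.log 2 + Real.log 3) / κ)
  obtain ⟨J₃, hJ₃⟩ := exists_nat_gt (Real.log 2 / δ)
  refine ⟨τ, hτ, max J₁ (max J₂ J₃), fun J hJ F A hS => ?_⟩
  have hJ1 : J₁ ≤ J := (le_max_left _ _).trans hJ
  have hJ2 : (J₂ : ℝ) ≤ J := by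
    exact_mod_cast (le_max_left J₂ J₃).trans ((le_max_right _ _).trans hJ)
  have hJ3 : (J₃ : ℝ) ≤ J := by
    exact_mod_cast (le_max_right J₂ J₃).trans ((le_max_right _ _).trans hJ)
  have hl3 : 0 < Real.log 3 := Real.log_pos (by norm_num)
  have hn2 : 2 * (Real.log 2 + Real.log 3) ≤ κ * J := by
    have h2 := hJ₂.le.trans hJ2
    rw [div_le_iff₀ hκ0] at h2
    linarith
  have hn3 : Real.log 2 ≤ δ * J := by
    have h2 := hJ₃.le.trans hJ3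
    rw [div_le_iff₀ hδ0] at h2
    linarith
  have hl := cond_law hmem hS
  have hPl := P2_isLaw hl (slam F ⌊w0 * J⌋₊)
  have hP0 := hPl.nonneg
  have hW : ⌊w0 * J⌋₊ ≤ ⌊w1 * J⌋₊ :=
    Nat.floor_le_floor (mul_le_mul_of_nonneg_right h01.le (Nat.cast_nonneg J))
  have hW1 : ⌊w1 * J⌋₊ ≤ J := by
    have h2 : w1 * (J : ℝ) ≤ J := by
      have := mul_le_mul_of_nonneg_right h1 (Nat.cast_nonneg (α := ℝ) J)
      linarith
    calc ⌊w1 * J⌋₊ ≤ ⌊(J : ℝ)⌋₊ := Nat.floor_le_floor h2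
      _ = J := Nat.floor_natCast J
  have hWd : (w1 - w0) * J - 1 ≤ ((⌊w1 * J⌋₊ - ⌊w0 * J⌋₊ : ℕ) : ℝ) := by
    rw [Nat.cast_sub hW]
    have h2 := Nat.lt_floor_add_one (w1 * (J : ℝ))
    have h3 := Nat.floor_le (show 0 ≤ w0 * (J : ℝ) by positivity)
    linarith
  have h3 := h J hJ1 F A hS ⌊w1 * J⌋₊ hW hW1
  rw [← tdg_P2 F hl] at h3
  beta_reduce
  obtain ⟨W0, hW0e⟩ : ∃ W, W = ⌊w0 * J⌋₊ := ⟨_, rfl⟩
  obtain ⟨W1, hW1e⟩ : ∃ W, W = ⌊w1 * J⌋₊ := ⟨_, rfl⟩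
  rw [← hW0e] at hPl hP0 hW hWd h3 ⊢
  rw [← hW1e] at hW hW1 hWd h3 ⊢
  obtain ⟨P, hP⟩ : ∃ P, P = P2 (Pool.Agent.H49.Ent.cond F.p A True) (slam F W0) := ⟨_, rfl⟩
  rw [← hP] at hPl hP0 h3 ⊢
  have h4 := few_ev hPl (fun e => F.T e.2 / 2 ^ (J - W1) % 2 ^ (W1 - W0)) (M := 2 ^ (W1 - W0))
    (n := 3) (fun e => e.1)
    (fun e => Pool.NJ34.sgn (2 ^ (J - W1)) (fun e => F.T e.1) (fun e => F.T e.2) e = 0)
    (fun ω => {(F.T ω / 2 ^ (J - W1) - 1) % 2 ^ (W1 - W0), (F.T ω / 2 ^ (J - W1)) % 2 ^ (W1 - W0),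
      (F.T ω / 2 ^ (J - W1) + 1) % 2 ^ (W1 - W0)})
    (fun e _ => Nat.mod_lt _ (by positivity))
    (fun e _ he => by
      constructor
      · have h5 : F.T e.2 / 2 ^ (J - W1) = F.T e.1 / 2 ^ (J - W1) - 1 ∨
            F.T e.2 / 2 ^ (J - W1) = F.T e.1 / 2 ^ (J - W1) ∨
            F.T e.2 / 2 ^ (J - W1) = F.T e.1 / 2 ^ (J - W1) + 1 := by
          unfold Pool.NJ34.sgn at he
          obtain ⟨a, ha⟩ : ∃ a, a = F.T e.1 / 2 ^ (J - W1) := ⟨_, rfl⟩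
          obtain ⟨b, hb⟩ : ∃ b, b = F.T e.2 / 2 ^ (J - W1) := ⟨_, rfl⟩
          rw [← ha, ← hb] at he ⊢
          by_cases h6 : a + 1 < b
          · rw [if_pos h6] at he
            exact absurd he (by norm_num)
          · rw [if_neg h6] at he
            by_cases h7 : b + 1 < a
            · rw [if_pos h7] at he
              exact absurd he (by norm_num)
            · omega
        simp only [Finset.mem_insert, Finset.mem_singleton]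
        rcases h5 with h5 | h5 | h5
        · left; rw [h5]
        · right; left; rw [h5]
        · right; right; rw [h5]
      · exact Finset.card_le_three)
    h3
  have hlaw : law P (Pool.NJ34.sgn (2 ^ (J - W1)) (fun e => F.T e.1) (fun e => F.T e.2)) 0 =
      Pe P (fun e => Pool.NJ34.sgn (2 ^ (J - W1)) (fun e => F.T e.1) (fun e => F.T e.2) e = 0) := by
    rw [Pe_eq]
    unfold law
    exact Finset.sum_congr rfl fun _ _ => by congr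
  rw [hlaw]
  push_cast at h4
  rw [Real.log_pow] at h4
  have h5 : κ * J - Real.log 2 ≤ ((W1 - W0 : ℕ) : ℝ) * Real.log 2 := by
    have h6 := mul_le_mul_of_nonneg_right hWd hl2.le
    rw [hκ]
    linarith
  have h6 : κ * J / 2 ≤ ((W1 - W0 : ℕ) : ℝ) * Real.log 2 - Real.log 3 := by linarith
  have hPe0 : 0 ≤ Pe P (fun e => Pool.NJ34.sgn (2 ^ (J - W1)) (fun e => F.T e.1)
      (fun e => F.T e.2) e = 0) := Pe_nonneg hPl _
  have hκJ : 0 < κ * J := by linarith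
  have h7 := (mul_le_mul_of_nonneg_left h6 hPe0).trans h4
  have h8 : δ * J = th * (κ * J) / 4 := by
    rw [hδ]
    ring
  have h9 : Pe P (fun e => Pool.NJ34.sgn (2 ^ (J - W1)) (fun e => F.T e.1)
      (fun e => F.T e.2) e = 0) * (κ * J) ≤ th * (κ * J) := by
    rw [h8] at h7 hn3
    linarith
  exact le_of_mul_le_mul_right h9 hκJ

end Pool.NJ34C
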