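import Pool.Agent.H73.NJ.CntU
import Pool.Agent.H86.IE.Jen
import Pool.Agent.H37.CLO.Clu

/-! helper73: counting the integer points of one coordinate where the local size of a polynomial is
small and the local size of its derivative is not (34's PIECE CNT). -/

set_option autoImplicit false

namespace Pool.NJ34C

open Finset MvPolynomial
open Pool.KAL Pool.IEN Pool.CLO37

/-- the restriction of `Q` to the line `τ ↦ (τ + a, b)` -/
noncomputable def rst {d : ℕ} (a : ℝ) (b : Fin d → ℝ) (Q : MvPolynomial (Option (Fin d)) ℝ) :
    Polynomial ℝ :=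
  aeval (fun o : Option (Fin d) => match o with
    | none => (Polynomial.X + Polynomial.C a : Polynomial ℝ)
    | some i => Polynomial.C (b i)) Q

lemma rst_eval {d : ℕ} (a : ℝ) (b : Fin d → ℝ) (Q : MvPolynomial (Option (Fin d)) ℝ) (τ : ℝ) :
    (rst a b Q).eval τ = eval (fun o : Option (Fin d) => match o with
      | none => τ + a
      | some i => b i) Q := by
  unfold rst
  induction Q using MvPolynomial.induction_on with
  | C c => simp
  | add p q hp hq => simp only [map_add, Polynomial.eval_add, hp, hq]
  | mul_X p o hp =>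
    rw [map_mul, Polynomial.eval_mul, hp, map_mul, aeval_X, eval_X]
    cases o with
    | none => simp
    | some i => simp

lemma rst_deriv {d : ℕ} (a : ℝ) (b : Fin d → ℝ) (Q : MvPolynomial (Option (Fin d)) ℝ) :
    Polynomial.derivative (rst a b Q) = rst a b (pderiv none Q) := by
  unfold rst
  induction Q using MvPolynomial.induction_on with
  | C c => simp
  | add p q hp hq => simp only [map_add, hp, hq]
  | mul_X p o hp =>
    rw [map_mul, Polynomial.derivative_mul, hp, Derivation.leibniz, map_add, aeval_X]
    cases o with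
    | none =>
      simp [smul_eq_mul]
      ring
    | some i =>
      rw [pderiv_X_of_ne (by simp)]
      simp [smul_eq_mul]
      ring

lemma rst_natDegree {d D : ℕ} (a : ℝ) (b : Fin d → ℝ) (Q : MvPolynomial (Option (Fin d)) ℝ)
    (hQ : Q.totalDegree ≤ D) : (rst a b Q).natDegree ≤ D := by
  have h := MvPolynomial.aeval_natDegree_le (n := 1) Q hQ (fun o : Option (Fin d) => match o with
    | none => (Polynomial.X + Polynomial.C a : Polynomial ℝ)
    | some i => Polynomial.C (b i)) (by
      intro o
      cases o with
      | none => exact (Polynomial.natDegree_X_add_C a).le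
      | some i =>
        show (Polynomial.C (b i)).natDegree ≤ 1
        rw [Polynomial.natDegree_C]
        omega)
  simpa [rst] using h

theorem cnt_psi (d D : ℕ) : ∃ C : ℝ, 1 ≤ C ∧ ∀ Q : MvPolynomial (Option (Fin d)) ℝ,
    Q.totalDegree ≤ D → ∀ s eta kap sig : ℝ, 0 ≤ s → 0 ≤ eta → 0 < kap → 0 < sig →
    ∀ (x : Option (Fin d) → ℝ) (S : Finset ℤ),
      (∀ n ∈ S, Psi Q s (Function.update x none ((n : ℝ) * sig)) ≤ eta ∧
        kap ≤ Psi (pN 1 Q) s (Function.update x none ((n : ℝ) * sig))) →
      (S.card : ℝ) ≤ C * (1 + eta / (kap * sig)) := by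
  classical
  obtain ⟨K, hK1, hK⟩ := grd_coef (Option (Fin d)) D
  set G : ℕ := Fintype.card (Option (Fin d) → Fin (D + 1)) with hG
  have hG1 : (1 : ℝ) ≤ G := by
    have : 0 < G := Fintype.card_pos
    exact_mod_cast this
  refine ⟨G * ((2 * D + 2) * (4 * K)), ?_, ?_⟩
  · have h1 : (1 : ℝ) ≤ 2 * D + 2 := by
      have : (0 : ℝ) ≤ D := Nat.cast_nonneg D
      linarith
    have h2 : (1 : ℝ) ≤ 4 * K := by linarith
    have h3 : (1 : ℝ) ≤ (2 * D + 2) * (4 * K) := one_le_mul_of_one_le_of_one_le h1 h2
    exact one_le_mul_of_one_le_of_one_le hG1 h3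
  intro Q hQ s eta kap sig hs heta hkap hsig x S hS
  have hpd : pN 1 Q = pderiv none Q := by
    rw [show (1 : ℕ) = 0 + 1 from rfl, pN_succ, pN_zero]
  have hpdeg : (pN 1 Q).totalDegree ≤ D := pN_deg 1 D hQ
  let Sa : (Option (Fin d) → Fin (D + 1)) → Finset ℤ := fun a => S.filter (fun n =>
    kap / (2 * K) ≤ |eval (fun o => (Function.update x none ((n : ℝ) * sig)) o + s * grp D a o)
      (pN 1 Q)|)
  have hcov : S ⊆ Finset.univ.biUnion Sa := by
    intro n hn
    rw [Finset.mem_biUnion]
    by_contra hcon
    push Not at hcon
    have h1 : ∀ a : Option (Fin d) → Fin (D + 1),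
        |eval (grp D a) (shf (pN 1 Q) s (Function.update x none ((n : ℝ) * sig)))|
          ≤ kap / (2 * K) := by
      intro a
      have h2 := hcon a (Finset.mem_univ a)
      rw [Finset.mem_filter, not_and, not_le] at h2
      rw [eval_shf]
      exact (h2 hn).le
    have h2 := hK _ _ ((totalDegree_shf_le (pN 1 Q) s
      (Function.update x none ((n : ℝ) * sig))).trans hpdeg) h1
    have h3 := (hS n hn).2
    have h4 : K * (kap / (2 * K)) = kap / 2 := by
      field_simp
    rw [h4] at h2
    unfold Psi at h3
    linarith
  have hone : ∀ a, ((Sa a).card : ℝ) ≤ (2 * D + 2) * (4 * K) * (1 + eta / (kap * sig)) := by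
    intro a
    have hb := cnt_uni D (rst (s * grp D a none) (fun i => x (some i) + s * grp D a (some i)) Q)
      (rst_natDegree _ _ Q hQ) (eta := eta) (kap := kap / (2 * K)) (sig := sig) heta
      (by positivity) hsig (Sa a) (by
        intro n hn
        rw [Finset.mem_filter] at hn
        obtain ⟨hnS, hn2⟩ := hn
        have hfun : (fun o : Option (Fin d) => match o with
            | none => (n : ℝ) * sig + s * grp D a none
            | some i => x (some i) + s * grp D a (some i))
            = fun o => (Function.update x none ((n : ℝ) * sig)) o + s * grp D a o := by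
          funext o
          cases o with
          | none => simp
          | some i => simp
        constructor
        · rw [rst_eval, hfun]
          refine (abs_eval_le_Psi_of_near Q s hs (Function.update x none ((n : ℝ) * sig)) _ ?_).trans
            (hS n hnS).1
          intro o
          have h5 := grp_mem D a o
          rw [add_sub_cancel_left, abs_of_nonneg (mul_nonneg hs h5.1)]
          nlinarith [h5.2]
        · rw [rst_deriv, rst_eval, hfun, ← hpd]
          exact hn2)
    refine hb.trans ?_
    have e1 : 2 * eta / (kap / (2 * K) * sig) = 4 * K * (eta / (kap * sig)) := by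
      field_simp
      ring
    have hz : 0 ≤ eta / (kap * sig) := by positivity
    set z := eta / (kap * sig) with hzdef
    rw [e1]
    calc (2 * (D : ℝ) + 2) * (2 + 4 * K * z) ≤ (2 * (D : ℝ) + 2) * (4 * K * (1 + z)) := by
          apply mul_le_mul_of_nonneg_left _ (by positivity)
          nlinarith
      _ = (2 * D + 2) * (4 * K) * (1 + z) := by ring
  have h1 : (S.card : ℝ) ≤ ∑ a, ((Sa a).card : ℝ) := by
    have := (Finset.card_le_card hcov).trans Finset.card_biUnion_le
    exact_mod_cast this
  refine h1.trans ((Finset.sum_le_sum (fun a _ => hone a)).trans ?_)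
  rw [Finset.sum_const, Finset.card_univ, nsmul_eq_mul, ← hG]
  exact le_of_eq (by ring)

end Pool.NJ34C
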