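import Mathlib

/-! helper73: counting the integer points where a polynomial is small and its derivative is not
(34's PIECE CNT, univariate part). -/

namespace Pool.NJ34C

open Polynomial

lemma gap_of_strictMono {m : ℕ} (f : Fin m → ℤ) (hf : StrictMono f) :
    ∀ (k : ℕ) (a b : Fin m), b.val = a.val + k → (k : ℤ) ≤ f b - f a := by
  intro k
  induction k with
  | zero =>
    intro a b h
    have : a = b := Fin.ext (by omega)
    subst this
    simp
  | succ k ih =>
    intro a b h
    have hb := b.2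
    have h1 := ih a ⟨a.val + k, by omega⟩ rfl
    have h2 : f ⟨a.val + k, by omega⟩ < f b := hf (by
      rw [Fin.lt_def]
      show a.val + k < b.val
      omega)
    push_cast
    omega

theorem cnt_uni (D : ℕ) (q : Polynomial ℝ) (hq : q.natDegree ≤ D) {eta kap sig : ℝ}
    (h0 : 0 ≤ eta) (hk : 0 < kap) (hs : 0 < sig) (S : Finset ℤ)
    (hS : ∀ n ∈ S, |q.eval ((n : ℝ) * sig)| ≤ eta ∧
      kap ≤ |(derivative q).eval ((n : ℝ) * sig)|) :
    (S.card : ℝ) ≤ (2 * D + 2) * (2 + 2 * eta / (kap * sig)) := by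
  by_contra hcon
  rw [not_le] at hcon
  have hks : 0 < kap * sig := mul_pos hk hs
  set z : ℝ := 2 * eta / (kap * sig) with hz
  have hz0 : 0 ≤ z := by positivity
  set q0 : ℕ := ⌊z⌋₊ + 1 with hq0
  have hq1 : z < (q0 : ℝ) := by
    rw [hq0]; push_cast; exact Nat.lt_floor_add_one z
  have hq2 : (q0 : ℝ) ≤ z + 1 := by
    rw [hq0]; push_cast
    have := Nat.floor_le hz0
    linarith
  have hq0pos : (0 : ℝ) < q0 := lt_of_le_of_lt hz0 hq1
  -- enough elements
  have hcard : (2 * D + 1) * q0 + 1 ≤ S.card := by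
    have h1 : ((2 * D + 2 : ℕ) : ℝ) * (q0 : ℝ) < (S.card : ℝ) := by
      push_cast
      refine lt_of_le_of_lt ?_ hcon
      have : (0 : ℝ) ≤ 2 * D + 2 := by positivity
      nlinarith
    have h2 : (2 * D + 2) * q0 < S.card := by exact_mod_cast h1
    have h3 : 1 ≤ q0 := by omega
    nlinarith
  let e : Fin S.card ↪o ℤ := S.orderEmbOfFin rfl
  have he : StrictMono (fun i => e i) := e.strictMono
  have hemem : ∀ i, e i ∈ S := fun i => S.orderEmbOfFin_mem rfl i
  have hidx : ∀ i : ℕ, i ≤ 2 * D + 1 → i * q0 < S.card := by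
    intro i hi
    have : i * q0 ≤ (2 * D + 1) * q0 := Nat.mul_le_mul_right _ hi
    omega
  let m : ℕ → ℤ := fun i => if h : i ≤ 2 * D + 1 then e ⟨i * q0, hidx i h⟩ else 0
  have hm : ∀ i (h : i ≤ 2 * D + 1), m i = e ⟨i * q0, hidx i h⟩ := by
    intro i h
    show (if h : i ≤ 2 * D + 1 then e ⟨i * q0, hidx i h⟩ else 0) = _
    rw [dif_pos h]
  have hmS : ∀ i, i ≤ 2 * D + 1 → m i ∈ S := by
    intro i h
    rw [hm i h]
    exact hemem _
  have hgap : ∀ i, i + 1 ≤ 2 * D + 1 → (q0 : ℤ) ≤ m (i + 1) - m i := by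
    intro i h
    rw [hm (i + 1) h, hm i (by omega)]
    exact gap_of_strictMono (fun i => e i) he q0 _ _ (by
      show (i + 1) * q0 = i * q0 + q0
      ring)
  have hmono : ∀ i j, i ≤ j → j ≤ 2 * D + 1 → m i ≤ m j := by
    intro i j hij hj
    rw [hm i (by omega), hm j hj]
    exact e.monotone (by
      rw [Fin.le_def]
      exact Nat.mul_le_mul_right _ hij)
  -- kap'
  set k0 : ℝ := 2 * eta / (q0 * sig) with hk0
  have hk0lt : k0 < kap := by
    rw [hk0, div_lt_iff₀ (mul_pos hq0pos hs)]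
    rw [hz, div_lt_iff₀ hks] at hq1
    nlinarith
  have hk00 : 0 ≤ k0 := by positivity
  set k1 : ℝ := (k0 + kap) / 2 with hk1
  have hk01 : k0 < k1 := by rw [hk1]; linarith
  have hk1k : k1 < kap := by rw [hk1]; linarith
  have hk10 : 0 < k1 := lt_of_le_of_lt hk00 hk01
  let R : Polynomial ℝ := (derivative q) ^ 2 - C (k1 ^ 2)
  have hReval : ∀ x, R.eval x = ((derivative q).eval x) ^ 2 - k1 ^ 2 := by
    intro x
    show ((derivative q) ^ 2 - C (k1 ^ 2)).eval x = _
    simp
  have hRdeg : R.natDegree ≤ 2 * D := by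
    show ((derivative q) ^ 2 - C (k1 ^ 2)).natDegree ≤ 2 * D
    rw [natDegree_sub_C]
    refine (natDegree_pow_le).trans ?_
    have := natDegree_derivative_le q
    omega
  have hRpos : ∀ n ∈ S, 0 < R.eval ((n : ℝ) * sig) := by
    intro n hn
    rw [hReval]
    have h1 := (hS n hn).2
    have h2 : k1 ^ 2 < |(derivative q).eval ((n : ℝ) * sig)| ^ 2 := by
      apply pow_lt_pow_left₀ (lt_of_lt_of_le hk1k h1) hk10.le (by norm_num)
    rw [sq_abs] at h2
    linarith
  have hroot : ∀ i : Fin (2 * D + 1), ∃ r : ℝ, (m i.val : ℝ) * sig < r ∧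
      r < (m (i.val + 1) : ℝ) * sig ∧ R.eval r = 0 := by
    intro i
    have hi : i.val + 1 ≤ 2 * D + 1 := by have := i.2; omega
    have hg := hgap i.val hi
    have hgR : (q0 : ℝ) ≤ (m (i.val + 1) : ℝ) - (m i.val : ℝ) := by exact_mod_cast hg
    have hlt : (m i.val : ℝ) * sig < (m (i.val + 1) : ℝ) * sig := by
      apply mul_lt_mul_of_pos_right _ hs
      linarith
    obtain ⟨ξ, hξ, hξe⟩ := exists_hasDerivAt_eq_slope (fun x => q.eval x)
      (fun x => (derivative q).eval x) hlt q.continuous.continuousOn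
      (fun x _ => q.hasDerivAt x)
    have hA := (hS _ (hmS i.val (by omega))).1
    have hB := (hS _ (hmS (i.val + 1) hi)).1
    have hlen : (q0 : ℝ) * sig ≤ (m (i.val + 1) : ℝ) * sig - (m i.val : ℝ) * sig := by
      rw [← sub_mul]
      exact mul_le_mul_of_nonneg_right hgR hs.le
    have hqs : 0 < (q0 : ℝ) * sig := mul_pos hq0pos hs
    have hsm : |(derivative q).eval ξ| ≤ k0 := by
      rw [hξe, abs_div, abs_of_pos (lt_of_lt_of_le hqs hlen), hk0]
      have hnum : |q.eval ((m (i.val + 1) : ℝ) * sig) - q.eval ((m i.val : ℝ) * sig)|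
          ≤ 2 * eta := by
        refine (abs_sub _ _).trans ?_
        linarith
      exact div_le_div₀ (by linarith) hnum hqs hlen
    have hneg : R.eval ξ < 0 := by
      rw [hReval]
      have h2 : |(derivative q).eval ξ| ^ 2 < k1 ^ 2 :=
        pow_lt_pow_left₀ (lt_of_le_of_lt hsm hk01) (abs_nonneg _) (by norm_num)
      rw [sq_abs] at h2
      linarith
    have hpos := hRpos _ (hmS (i.val + 1) hi)
    have hiv := intermediate_value_Ioo (f := fun x => R.eval x) hξ.2.le R.continuous.continuousOn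
    obtain ⟨r, hr, hr0⟩ := hiv (show (0 : ℝ) ∈ Set.Ioo (R.eval ξ)
      (R.eval ((m (i.val + 1) : ℝ) * sig)) from ⟨hneg, hpos⟩)
    exact ⟨r, lt_trans hξ.1 hr.1, hr.2, hr0⟩
  choose r hr1 hr2 hr3 using hroot
  have hinj : StrictMono r := by
    intro i j hij
    have h1 := hr2 i
    have h2 := hr1 j
    have h3 : m (i.val + 1) ≤ m j.val := hmono _ _ (by
      have := Fin.lt_def.1 hij
      omega) (by have := j.2; omega)
    have h4 : (m (i.val + 1) : ℝ) * sig ≤ (m j.val : ℝ) * sig := by
      apply mul_le_mul_of_nonneg_right _ hs.le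
      exact_mod_cast h3
    linarith
  have hR0 : R ≠ 0 := by
    intro hR
    have h1 := hRpos _ (hmS 0 (by omega))
    rw [hR] at h1
    simp at h1
  have hsub : (Finset.univ.image r) ⊆ R.roots.toFinset := by
    intro x hx
    obtain ⟨i, _, rfl⟩ := Finset.mem_image.1 hx
    rw [Multiset.mem_toFinset, mem_roots hR0]
    exact hr3 i
  have h1 := Finset.card_le_card hsub
  rw [Finset.card_image_of_injective _ hinj.injective, Finset.card_univ, Fintype.card_fin] at h1
  have h2 := Multiset.toFinset_card_le R.roots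
  have h3 := R.card_roots'
  omega

end Pool.NJ34C
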