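import Mathlib

/-! helper73: an affine function which is small along two transversal lines is small near their
common point (34's NJ, piece (A)). -/

set_option autoImplicit false

namespace Pool.NJ34C

/-- the slope along one line -/
theorem slope_le {a b c d δ t y E s1 s2 : ℝ} (hδ : 0 < δ) (h12 : s2 - s1 = δ)
    (h1 : |a + b * s1 + c * (y + (s1 - t) * E)| ≤ d)
    (h2 : |a + b * s2 + c * (y + (s2 - t) * E)| ≤ d) : |b + c * E| ≤ 2 * d / δ := by
  have e1 : (b + c * E) * δ = (a + b * s2 + c * (y + (s2 - t) * E)) -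
      (a + b * s1 + c * (y + (s1 - t) * E)) := by
    rw [← h12]
    ring
  have e2 : |(b + c * E) * δ| ≤ d + d := by
    rw [e1]
    exact (abs_sub _ _).trans (add_le_add h2 h1)
  rw [abs_mul, abs_of_pos hδ] at e2
  rw [le_div_iff₀ hδ]
  linarith

/-- **Two lines.** `f (s, y) = a + b s + c y` is at most `d` on the lines `y₀ + (s - t) E₀`,
`y₁ + (s - t) E₁` over the window `[s1, s2]`, which contains `t`; the velocities are at most `1`
and differ by at least `r`. -/
theorem two_lines {a b c d δ r t y0 y1 E0 E1 s1 s2 : ℝ} (hδ : 0 < δ) (hr : 0 < r)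
    (h12 : s2 - s1 = δ) (ht1 : s1 ≤ t) (ht2 : t ≤ s2) (hE0 : |E0| ≤ 1) (hE1 : |E1| ≤ 1)
    (hE : r ≤ |E0 - E1|)
    (h0 : ∀ s, s1 ≤ s → s ≤ s2 → |a + b * s + c * (y0 + (s - t) * E0)| ≤ d)
    (h1 : ∀ s, s1 ≤ s → s ≤ s2 → |a + b * s + c * (y1 + (s - t) * E1)| ≤ d) :
    |c| ≤ 4 * d / (δ * r) ∧ |b| ≤ 8 * d / (δ * r) ∧
      ∀ s y, |s - t| ≤ 4 * δ → |y - y0| ≤ 4 * δ → |a + b * s + c * y| ≤ 50 * d / r := by
  have hs : s1 ≤ s2 := by linarith
  have hd : 0 ≤ d := le_trans (abs_nonneg _) (h0 t ht1 ht2)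
  have k0 := slope_le hδ h12 (h0 s1 le_rfl hs) (h0 s2 hs le_rfl)
  have k1 := slope_le hδ h12 (h1 s1 le_rfl hs) (h1 s2 hs le_rfl)
  have hδr : 0 < δ * r := mul_pos hδ hr
  have hc : |c| ≤ 4 * d / (δ * r) := by
    have e1 : c * (E0 - E1) = (b + c * E0) - (b + c * E1) := by ring
    have e2 : |c * (E0 - E1)| ≤ 2 * d / δ + 2 * d / δ := by
      rw [e1]
      exact (abs_sub _ _).trans (add_le_add k0 k1)
    rw [abs_mul] at e2
    have e3 : |c| * r ≤ 4 * d / δ := by
      have := mul_le_mul_of_nonneg_left hE (abs_nonneg c)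
      have e4 : 2 * d / δ + 2 * d / δ = 4 * d / δ := by ring
      linarith
    rw [le_div_iff₀ hδr]
    rw [le_div_iff₀ hδ] at e3
    nlinarith
  have hr2 : r ≤ 2 := by
    have : |E0 - E1| ≤ |E0| + |E1| := abs_sub _ _
    linarith
  have hz : 0 ≤ d / (δ * r) := by positivity
  have e5 : 2 * d / δ ≤ 4 * d / (δ * r) := by
    rw [div_le_div_iff₀ hδ hδr]
    nlinarith [mul_nonneg hd hδ.le]
  have hb : |b| ≤ 8 * d / (δ * r) := by
    have e1 : b = (b + c * E0) - c * E0 := by ring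
    have e2 : |b| ≤ 2 * d / δ + |c| := by
      calc |b| = |(b + c * E0) - c * E0| := by rw [← e1]
        _ ≤ |b + c * E0| + |c * E0| := abs_sub _ _
        _ ≤ 2 * d / δ + |c| := by
          refine add_le_add k0 ?_
          rw [abs_mul]
          calc |c| * |E0| ≤ |c| * 1 := mul_le_mul_of_nonneg_left hE0 (abs_nonneg _)
            _ = |c| := mul_one _
    have e4 : 8 * d / (δ * r) = 4 * d / (δ * r) + 4 * d / (δ * r) := by ring
    linarith
  refine ⟨hc, hb, fun s y hs' hy => ?_⟩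
  have e1 : a + b * s + c * y = (a + b * t + c * (y0 + (t - t) * E0)) + (b * (s - t) +
      c * (y - y0)) := by ring
  have e2 : |b * (s - t)| ≤ 8 * d / (δ * r) * (4 * δ) := by
    rw [abs_mul]
    exact mul_le_mul hb hs' (abs_nonneg _) (by positivity)
  have e3 : |c * (y - y0)| ≤ 4 * d / (δ * r) * (4 * δ) := by
    rw [abs_mul]
    exact mul_le_mul hc hy (abs_nonneg _) (by positivity)
  have e4 : 8 * d / (δ * r) * (4 * δ) = 32 * d / r := by
    field_simp
    ring
  have e6 : 4 * d / (δ * r) * (4 * δ) = 16 * d / r := by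
    field_simp
    ring
  have e7 : d ≤ 2 * d / r := by
    rw [le_div_iff₀ hr]
    nlinarith
  have e8 : 50 * d / r = 2 * d / r + (32 * d / r + 16 * d / r) := by ring
  rw [e1, e8]
  refine (abs_add_le _ _).trans (add_le_add ((h0 t ht1 ht2).trans e7) ?_)
  refine (abs_add_le _ _).trans (add_le_add ?_ ?_)
  · rw [← e4]; exact e2
  · rw [← e6]; exact e3

end Pool.NJ34C
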